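import Pool.Agent.Work.MP_323107_co.Sup

open MeasureTheory Set Metric SteinerBall
open scoped ENNReal

namespace Pool.Agent.Results.MP_323107_co.LengthBound

/-- Finiteness and growth of the extremal length. For every `d ≥ 3` and every class `C` of
configurations which contains the tripods and consists of locally minimal configurations (the
class of full Steiner trees of finite length is one of them) the supremum of the length in the
ball of radius `t r`, divided by `r`, is at most `K t / (1 - t) ^ (d - 2)` for all
`t ∈ (0, 1)`. -/
theorem result (d : ℕ) (hd : 3 ≤ d) :
    Between (d := d) Admissible ∧ Between (d := d) LocMin ∧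
      ∀ C : ConfigClass d, Between C → ∀ t : ℝ, 0 < t → t < 1 →
        supLength C t ≤ ENNReal.ofReal
          ((48 ^ (d - 1) * (2 * ((d : ℝ) - 2)) ^ (d - 2)) * t / (1 - t) ^ (d - 2)) := by
  refine ⟨between_admissible d, between_locMin d, fun C hC t ht ht1 => ?_⟩
  have h := supLength_upper hd hC ht ht1
  rw [bound, Nat.cast_sub (by omega : 2 ≤ d)] at h
  exact h

end Pool.Agent.Results.MP_323107_co.LengthBound
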