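import Pool.Agent.Work.MP_323107_co.Sup

open MeasureTheory Set Metric SteinerBall
open scoped ENNReal

namespace Pool.Agent.Results.MP_323107_co.SmallBall

/-- The exact value for small `t`. For every `d ≥ 3` and every class `C` of configurations which
contains the tripods and consists of locally minimal configurations (the class of full Steiner
trees of finite length is one of them) there is a threshold `t₀ > 0`, bounded below explicitly,
such that for `t ∈ (0, 1)` the supremum equals `3 t` exactly when `t ≤ t₀`; for these `t` it is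
attained by every tripod. -/
theorem result (d : ℕ) (hd : 3 ≤ d) :
    Between (d := d) Admissible ∧ Between (d := d) LocMin ∧
      ∀ C : ConfigClass d, Between C →
        ∃ t₀ : ℝ,
          Real.exp (-(125 * (48 ^ (d - 1) * (2 * ((d : ℝ) - 2)) ^ (d - 2)))) / 2 ≤ t₀ ∧
          t₀ ≤ 1 ∧
          ∀ t : ℝ, 0 < t → t < 1 →
            (supLength C t = ENNReal.ofReal (3 * t) ↔ t ≤ t₀) ∧
            ∀ (u : Fin 3 → EuclideanSpace ℝ (Fin d)) (r : ℝ), (∀ i, ‖u i‖ = 1) →
              ∑ i, u i = 0 → 0 < r →
              μH[1] (tri u r ∩ ball 0 (t * r)) / ENNReal.ofReal r = ENNReal.ofReal (3 * t) := by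
  refine ⟨between_admissible d, between_locMin d, fun C hC => ?_⟩
  obtain ⟨t₀, h1, h2, h3⟩ := supLength_interval hd hC
  refine ⟨t₀, ?_, h2, fun t ht ht1 => ⟨h3 t ht ht1, fun u r hu hsum hr =>
    tripod_value u hu hsum ht ht1 hr⟩⟩
  rw [radius, bound, Nat.cast_sub (by omega : 2 ≤ d)] at h1
  exact h1

end Pool.Agent.Results.MP_323107_co.SmallBall
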